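import Pool.Agent.Run7.h335.FM.Base

/-!
# Six even subgraphs: covers, matchings and dominating sets modulo pieces (MP_40718a_co)

Let `G` be a finite multigraph without cut edges, and let `F` be the union of a chain of pieces. If the
contracted graph `G / F` has a vertex cover with nine vertices, or no matching with nine edges, or a
set `D` of vertices such that every other vertex is close to a vertex of `D` and every vertex of `D`
is close to all other vertices of `D` but at most two, then `G` has six even subgraphs such that every
edge is in exactly four of them.  Vertices are close if they are joined by an edge or by two different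
paths with two edges.

Here a chain is a sequence of sets of edges (pieces), and `F` is their union; every piece is a circuit
or ear with at most four new edges, or any set without bridge modulo the earlier pieces with at most
four new edges, or a doubly connected set. So `F` can contain all but very few edges of `G`.
For instance `G` arises from any graph without cut edges and without matching with nine edges if every
vertex is replaced by a ladder, a wheel, or any other graph of short circuits: the matching number of
`G` is not bounded.

Proof. Let `p` be a quotient of `G` in which the edges of `F` are loops. It is a quotient of the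
contracted graph. All three conditions are inherited by quotients (images of covers are covers,
matchings of a quotient are matchings, and vertices which are close have close images), and a graph
without cut edges which satisfies one of them has a nowhere-zero 4-flow or a Petersen quotient
(starting library, `R890/FF`, `R769/MN`, `N399/DM`). So the condition `every quotient in which the
edges of F are loops is in the class` is inherited by quotients and by the contraction of pieces, and
the chain is contracted with the theorems of `N410/DC`: flows and Petersen quotients are lifted.
-/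

set_option autoImplicit false

namespace Pool.Agent.Results.MP_40718a_co.CoversMatchingsModuloPieces

open Finset

/-- the simple graph in which two distinct vertices are adjacent if an edge in `F` joins them -/
def under {V E : Type} (src dst : E → V) (F : Set E) : SimpleGraph V where
  Adj x y := x ≠ y ∧ ∃ e ∈ F, (src e = x ∧ dst e = y) ∨ (src e = y ∧ dst e = x)
  symm := ⟨fun _ _ h => ⟨h.1.symm, h.2.imp fun _ he => ⟨he.1, he.2.symm⟩⟩⟩
  loopless := ⟨fun _ h => h.1 rfl⟩

/-- the edge `e` is a cut edge: its ends are not connected by the other edges -/
def IsCutEdge {V E : Type} (src dst : E → V) (e : E) : Prop :=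
  ¬ (under src dst {e' | e' ≠ e}).Reachable (src e) (dst e)

/-- the degree of `v` in the set of edges `F`, where a loop counts twice -/
def deg {V E : Type} [DecidableEq V] (src dst : E → V) (F : Finset E) (v : V) : ℕ :=
  ∑ e ∈ F, ((if src e = v then 1 else 0) + (if dst e = v then 1 else 0))

/-- The edges with exactly one end in `X`. -/
def boundary {V E : Type} [DecidableEq V] [Fintype E] (src dst : E → V) (X : Finset V) :
    Finset E :=
  univ.filter (fun e => ¬ (src e ∈ X ↔ dst e ∈ X))

/-- The union of the sets `C j` with `j < i`. -/
def earlier {E : Type} [DecidableEq E] {m : ℕ} (C : Fin m → Finset E) (i : Fin m) : Finset E :=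
  (univ.filter (fun j => j < i)).biUnion C

/-- `H` can be added to the chain after `F`: either (short) `H` has at most four edges outside `F`
and no bridge modulo `F`: no set `Y` of vertices without boundary edges in `F` has exactly one
boundary edge in `H`; or (doubly connected) `H` contains two disjoint sets each of which connects,
modulo `F`, whatever `H` connects: every set `Y` of vertices without boundary edges in `F` and with
a boundary edge in `H` has boundary edges in both sets. -/
def Adds {V E : Type} [DecidableEq V] [Fintype E] [DecidableEq E] (src dst : E → V)
    (F H : Finset E) : Prop :=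
  ((H \ F).card ≤ 4 ∧ ∀ Y : Finset V, Disjoint (boundary src dst Y) F →
    (boundary src dst Y ∩ H).card ≠ 1) ∨
  ∃ T₁ T₂ : Finset E, T₁ ⊆ H ∧ T₂ ⊆ H ∧ Disjoint T₁ T₂ ∧ ∀ Y : Finset V,
    Disjoint (boundary src dst Y) F → ¬ Disjoint (boundary src dst Y) H →
      ¬ Disjoint (boundary src dst Y) T₁ ∧ ¬ Disjoint (boundary src dst Y) T₂

/-- The map `r` contracts the edges of `F` and nothing else: the ends of every edge of `F` have the
same image, and no set `Y` of vertices without boundary edges in `F` separates `v` and `r v` (so `v`
and `r v` are in the same component of the graph formed by the edges of `F`). The contracted graph is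
the graph in which the ends of the edge `e` are the images of the ends of `e`. -/
def Contracts {V E : Type} [DecidableEq V] [Fintype E] [DecidableEq E] (src dst : E → V)
    (F : Finset E) (r : V → V) : Prop :=
  (∀ e ∈ F, r (src e) = r (dst e)) ∧
    ∀ v, ∀ Y : Finset V, Disjoint (boundary src dst Y) F → (v ∈ Y ↔ r v ∈ Y)

/-- Nine vertices cover all edges which are not loops. -/
def CoveredByNine {V E : Type} (s t : E → V) : Prop :=
  ∃ D : Finset V, D.card ≤ 9 ∧ ∀ e, s e ≠ t e → s e ∈ D ∨ t e ∈ D

/-- The edges of `M` are not loops and no two of them have a common end. -/
def IsMatching {V E : Type} (s t : E → V) (M : Finset E) : Prop :=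
  (∀ e ∈ M, s e ≠ t e) ∧ ∀ e ∈ M, ∀ e' ∈ M, e ≠ e' →
    s e ≠ s e' ∧ s e ≠ t e' ∧ t e ≠ s e' ∧ t e ≠ t e'

/-- The edge `e` joins the vertices `x` and `y`. -/
def Joins {V E : Type} (s t : E → V) (e : E) (x y : V) : Prop :=
  (s e = x ∧ t e = y) ∨ (s e = y ∧ t e = x)

/-- The vertices `x` and `y` are joined by an edge, or by two different paths with two edges. -/
def Close {V E : Type} (s t : E → V) (x y : V) : Prop :=
  (∃ e, Joins s t e x y) ∨ ∃ (e f e' f' : E) (a b : V), (e ≠ e' ∨ f ≠ f') ∧ Joins s t e x a ∧
    Joins s t f a y ∧ Joins s t e' x b ∧ Joins s t f' b y

/-- Every vertex outside of `D` which is an end of an edge (not a loop) is close to a vertex of `D`,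
and every vertex of `D` is close to all other vertices of `D` but at most two. -/
def Dominates {V E : Type} (s t : E → V) (D : Finset V) : Prop :=
  (∀ x, x ∉ D → (∃ e, s e ≠ t e ∧ (s e = x ∨ t e = x)) → ∃ d ∈ D, Close s t x d) ∧
    ∀ d ∈ D, ∀ W : Finset V, W ⊆ D → (∀ c ∈ W, c ≠ d ∧ ¬ Close s t d c) → W.card ≤ 2

/-- The graph has a vertex cover with nine vertices, or no matching with nine edges, or a dominating
set as above. -/
def Small {V E : Type} (s t : E → V) : Prop :=
  CoveredByNine s t ∨ (∀ M : Finset E, IsMatching s t M → M.card ≤ 8) ∨
    ∃ D : Finset V, Dominates s t D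

/-- For some chain of sets of edges with union `F` (for instance the empty chain) the graph which
arises by the contraction of the edges of `F` has a vertex cover with nine vertices, or no matching
with nine edges, or a dominating set as above. -/
def SmallModuloPieces {V E : Type} [Fintype V] [DecidableEq V] [Fintype E] [DecidableEq E]
    (src dst : E → V) : Prop :=
  ∃ (m : ℕ) (C : Fin m → Finset E) (r : V → V), (∀ i, Adds src dst (earlier C i) (C i)) ∧
    Contracts src dst (univ.biUnion C) r ∧ Small (fun e => r (src e)) (fun e => r (dst e))

/-- **Theorem.** A graph without a cut edge which satisfies the condition above has six even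
subgraphs such that every edge is in exactly four of them. -/
theorem result (V E : Type) [Fintype V] [DecidableEq V] [Fintype E] [DecidableEq E]
    (src dst : E → V) (hI : ∀ e, ¬ IsCutEdge src dst e) (h : SmallModuloPieces src dst) :
    ∃ C : Fin 6 → Finset E, (∀ i v, Even (deg src dst (C i) v)) ∧
      ∀ e, (univ.filter fun i => e ∈ C i).card = 4 := by
  classical
  -- no cut with one edge
  have hcut : Pool.Agent.TH676.A.Br src dst ∅ ∅ := by
    intro Y _ hY
    rw [sdiff_empty] at hY
    obtain ⟨e, he⟩ := card_eq_one.mp hY
    apply hI e
    intro hr
    have hstay : ∀ x y, (under src dst {e' | e' ≠ e}).Reachable x y → (x ∈ Y ↔ y ∈ Y) := by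
      rintro x y ⟨p⟩
      induction p with
      | nil => exact Iff.rfl
      | cons hadj _ ih =>
        refine Iff.trans ?_ ih
        obtain ⟨_, e', he', h1⟩ := hadj
        have hn : e' ∉ Pool.Agent.TH676.A.crs src dst Y := by
          rw [he, mem_singleton]; exact he'
        rw [Pool.Agent.TH676.A.mem_crs, not_not] at hn
        rcases h1 with ⟨h2, h3⟩ | ⟨h2, h3⟩
        · rw [h2, h3] at hn; exact hn
        · rw [h2, h3] at hn; exact hn.symm
    have hm : e ∈ Pool.Agent.TH676.A.crs src dst Y := by rw [he]; exact mem_singleton_self _
    rw [Pool.Agent.TH676.A.mem_crs] at hm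
    exact hm (hstay _ _ hr)
  obtain ⟨m, C, r, hC, hr, hO⟩ := h
  obtain ⟨C, h1, h2⟩ := Pool.Agent.TH497.BF.six
    (N410.DC.bf_gen Run7.h335.FM.inh_three src dst hcut
      (N410.DC.GCl.of_steps hC (Run7.h335.FM.three_of hr hO)))
  exact ⟨C, h1, h2⟩

end Pool.Agent.Results.MP_40718a_co.CoversMatchingsModuloPieces
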