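import Pool.Agent.Run7.h878.LF.Fin

/-!
# Six even subgraphs: dominating induced paths (MP_40718a_co)

Let `G` be a finite multigraph without cut edges, and let `F` be the union of a chain of pieces. If
every induced path with nine vertices of the contracted graph `G / F` is dominating (every vertex
with a neighbour is on the path or has a neighbour on the path; for instance there is no induced path
with nine vertices),
then `G` has six even subgraphs such that every edge is in exactly four of them.

Here a chain is a sequence of sets of edges (pieces), and `F` is their union; every piece is a circuit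
or ear with at most four new edges, or any set without bridge modulo the earlier pieces with at most
four new edges, or a doubly connected set. For the empty chain the condition is a condition on `G`
itself.

Proof. Assume that there is no nowhere-zero 4-flow and no Petersen quotient, and contract disjoint
connected sets as long as this remains true. By the starting library (`R140/PK`, `R890/FF`) the
result `H` has no circuits with at most four edges, no vertices with one or two neighbours, at least 18
vertices of odd degree, one component with edges, and an induced path with eight vertices. A
computer search, whose certificate is checked by the kernel (`Run7/h878/LF`), shows that `H` contains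
an induced path with nine vertices together with a vertex which is not adjacent to it. Induced linear
forests of a contraction can be lifted to the graph. Here and for the class of a Petersen quotient
(the other side of which contains a connected set with all ends of the three edges) only connected sets
are contracted, and this is compatible with the contraction of the chain (`N410/DC`).
-/

set_option autoImplicit false

namespace Pool.Agent.Results.MP_40718a_co.DominatingInducedPaths

open Finset

/-- the simple graph in which two distinct vertices are adjacent if an edge in `F` joins them -/
def under {V E : Type} (src dst : E → V) (F : Set E) : SimpleGraph V where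
  Adj x y := x ≠ y ∧ ∃ e ∈ F, (src e = x ∧ dst e = y) ∨ (src e = y ∧ dst e = x)
  symm := ⟨fun _ _ h => ⟨h.1.symm, h.2.imp fun _ he => ⟨he.1, he.2.symm⟩⟩⟩
  loopless := ⟨fun _ h => h.1 rfl⟩

/-- the edge `e` is a cut edge: its ends are not connected by the other edges -/
def IsCutEdge {V E : Type} (src dst : E → V) (e : E) : Prop :=
  ¬ (under src dst {e' | e' ≠ e}).Reachable (src e) (dst e)

/-- the degree of `v` in the set of edges `F`, where a loop counts twice -/
def deg {V E : Type} [DecidableEq V] (src dst : E → V) (F : Finset E) (v : V) : ℕ :=
  ∑ e ∈ F, ((if src e = v then 1 else 0) + (if dst e = v then 1 else 0))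

/-- The edges with exactly one end in `X`. -/
def boundary {V E : Type} [DecidableEq V] [Fintype E] (src dst : E → V) (X : Finset V) :
    Finset E :=
  univ.filter (fun e => ¬ (src e ∈ X ↔ dst e ∈ X))

/-- The union of the sets `C j` with `j < i`. -/
def earlier {E : Type} [DecidableEq E] {m : ℕ} (C : Fin m → Finset E) (i : Fin m) : Finset E :=
  (univ.filter (fun j => j < i)).biUnion C

/-- `H` can be added to the chain after `F`: either (short) `H` has at most four edges outside `F`
and no bridge modulo `F`: no set `Y` of vertices without boundary edges in `F` has exactly one
boundary edge in `H`; or (doubly connected) `H` contains two disjoint sets each of which connects,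
modulo `F`, whatever `H` connects: every set `Y` of vertices without boundary edges in `F` and with
a boundary edge in `H` has boundary edges in both sets. -/
def Adds {V E : Type} [DecidableEq V] [Fintype E] [DecidableEq E] (src dst : E → V)
    (F H : Finset E) : Prop :=
  ((H \ F).card ≤ 4 ∧ ∀ Y : Finset V, Disjoint (boundary src dst Y) F →
    (boundary src dst Y ∩ H).card ≠ 1) ∨
  ∃ T₁ T₂ : Finset E, T₁ ⊆ H ∧ T₂ ⊆ H ∧ Disjoint T₁ T₂ ∧ ∀ Y : Finset V,
    Disjoint (boundary src dst Y) F → ¬ Disjoint (boundary src dst Y) H →
      ¬ Disjoint (boundary src dst Y) T₁ ∧ ¬ Disjoint (boundary src dst Y) T₂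

/-- The map `r` contracts the edges of `F` and nothing else: the ends of every edge of `F` have the
same image, and no set `Y` of vertices without boundary edges in `F` separates `v` and `r v` (so `v`
and `r v` are in the same component of the graph formed by the edges of `F`). The contracted graph is
the graph in which the ends of the edge `e` are the images of the ends of `e`. -/
def Contracts {V E : Type} [DecidableEq V] [Fintype E] [DecidableEq E] (src dst : E → V)
    (F : Finset E) (r : V → V) : Prop :=
  (∀ e ∈ F, r (src e) = r (dst e)) ∧
    ∀ v, ∀ Y : Finset V, Disjoint (boundary src dst Y) F → (v ∈ Y ↔ r v ∈ Y)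

/-- The vertices `x` and `y` are different and joined by an edge. -/
def Adjacent {V E : Type} (s t : E → V) (x y : V) : Prop :=
  x ≠ y ∧ ∃ e, (s e = x ∧ t e = y) ∨ (s e = y ∧ t e = x)

/-- Every induced path `p 0, ..., p 8` with nine vertices is dominating: every vertex with a neighbour
is on the path or has a neighbour on the path. (For instance, there is no induced path with nine
vertices.) -/
def NinePathsDominate {V E : Type} (s t : E → V) : Prop :=
  ∀ p : Fin 9 → V, Function.Injective p →
    (∀ i j : Fin 9, i < j → (Adjacent s t (p i) (p j) ↔ i.val + 1 = j.val)) →
    ∀ x, (∃ y, Adjacent s t x y) → (∃ i, x = p i) ∨ ∃ i, Adjacent s t x (p i)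

/-- For some chain of sets of edges with union `F` (for instance the empty chain) the graph which
arises by the contraction of the edges of `F` has the property above: every induced
path with nine vertices is dominating. -/
def PathsModuloPieces {V E : Type} [Fintype V] [DecidableEq V] [Fintype E] [DecidableEq E]
    (src dst : E → V) : Prop :=
  ∃ (m : ℕ) (C : Fin m → Finset E) (r : V → V), (∀ i, Adds src dst (earlier C i) (C i)) ∧
    Contracts src dst (univ.biUnion C) r ∧
      NinePathsDominate (fun e => r (src e)) (fun e => r (dst e))

/-- **Theorem.** A graph without a cut edge which satisfies the condition above has six even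
subgraphs such that every edge is in exactly four of them. -/
theorem result (V E : Type) [Fintype V] [DecidableEq V] [Fintype E] [DecidableEq E]
    (src dst : E → V) (hI : ∀ e, ¬ IsCutEdge src dst e) (h : PathsModuloPieces src dst) :
    ∃ C : Fin 6 → Finset E, (∀ i v, Even (deg src dst (C i) v)) ∧
      ∀ e, (univ.filter fun i => e ∈ C i).card = 4 := by
  classical
  -- no cut with one edge
  have hcut : Pool.Agent.TH676.A.Br src dst ∅ ∅ := by
    intro Y _ hY
    rw [sdiff_empty] at hY
    obtain ⟨e, he⟩ := card_eq_one.mp hY
    apply hI e
    intro hr
    have hstay : ∀ x y, (under src dst {e' | e' ≠ e}).Reachable x y → (x ∈ Y ↔ y ∈ Y) := by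
      rintro x y ⟨p⟩
      induction p with
      | nil => exact Iff.rfl
      | cons hadj _ ih =>
        refine Iff.trans ?_ ih
        obtain ⟨_, e', he', h1⟩ := hadj
        have hn : e' ∉ Pool.Agent.TH676.A.crs src dst Y := by
          rw [he, mem_singleton]; exact he'
        rw [Pool.Agent.TH676.A.mem_crs, not_not] at hn
        rcases h1 with ⟨h2, h3⟩ | ⟨h2, h3⟩
        · rw [h2, h3] at hn; exact hn
        · rw [h2, h3] at hn; exact hn.symm
    have hm : e ∈ Pool.Agent.TH676.A.crs src dst Y := by rw [he]; exact mem_singleton_self _
    rw [Pool.Agent.TH676.A.mem_crs] at hm
    exact hm (hstay _ _ hr)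
  obtain ⟨m, C, r, hC, hr, hO⟩ := h
  obtain ⟨C, h1, h2⟩ := Pool.Agent.TH497.BF.six
    (Run7.h878.LF.bf_nice (Run7.h878.LF.CCl.nice Run7.h878.LF.unavA) src dst hcut
      (Run7.h878.LF.CCl.of_steps hC hr (Run7.h878.LF.not_hasF_nine hO)))
  exact ⟨C, h1, h2⟩

end Pool.Agent.Results.MP_40718a_co.DominatingInducedPaths
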