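import Pool.Agent.Run7.h335.FM.FarK

/-!
# Six even subgraphs: six or seven sets which are never far from each other (MP_40718a_co)

Let `G` be a finite multigraph without cut edges, and let `F` be the union of a chain of pieces. If
among any seven pairwise disjoint sets of vertices with at least three boundary edges, none of them in
`F`, two are joined by an edge or by two different paths with two edges, or if this holds for any six
pairwise disjoint sets with exactly three or exactly five boundary edges, none of them in `F`, then
`G` has six even subgraphs such that every edge is in exactly four of them.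

Here a chain is a sequence of sets of edges (pieces), and `F` is their union; every piece is a circuit
or ear with at most four new edges, or any set without bridge modulo the earlier pieces with at most
four new edges, or a doubly connected set. So `F` can contain all but very few edges of `G`.
For instance the first condition holds if `G / F` has independence number at most six.

Proof. After the contraction of `F` let `H` be a quotient without nowhere-zero 4-flow and without
Petersen quotient such that all proper quotients of `H` have a flow. At least 18 vertices of `H`
have odd degree, no vertex has degree one or two, and `H` has girth at least five (starting library,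
`TH362/TF`). A set of `k ≥ 2` vertices of `H` spans at most `2 k - 3` edges (`N410/DC/Sparse.lean`).
So `H` has seven pairwise nonadjacent vertices of degree at least three (`R545/IN`). Let `a`, `b`,
`c` be the numbers of the vertices of degree 3, 5 and of odd degree at least 7. The sum of `4 - d(y)`
over the vertices `y` of `H` which are not isolated is at least six, so `a ≥ 6 + b + 3 c`, and hence
`a + b ≥ 15`. A graph of girth at least five with 15 vertices has six pairwise nonadjacent vertices:
otherwise all degrees are at least 4 by `R(5) = 11` (eleven vertices without five pairwise
nonadjacent ones form a cubic graph, but 33 is odd), and the neighbours of the two ends of an edge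
form an independent set with six vertices. The classes of these vertices of `H` are disjoint sets of
vertices of `G`, and no two of them are close.

So `G` has a nowhere-zero 4-flow, or ten classes of vertices form a Petersen graph; the condition is
inherited by quotients, and the values for the ten smaller graphs in which the vertices outside of
one class are identified are glued with the theorems of `R890/FF`.
-/

set_option autoImplicit false

namespace Pool.Agent.Results.MP_40718a_co.SixSevenFarSets

open Finset

/-- the simple graph in which two distinct vertices are adjacent if an edge in `F` joins them -/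
def under {V E : Type} (src dst : E → V) (F : Set E) : SimpleGraph V where
  Adj x y := x ≠ y ∧ ∃ e ∈ F, (src e = x ∧ dst e = y) ∨ (src e = y ∧ dst e = x)
  symm := ⟨fun _ _ h => ⟨h.1.symm, h.2.imp fun _ he => ⟨he.1, he.2.symm⟩⟩⟩
  loopless := ⟨fun _ h => h.1 rfl⟩

/-- the edge `e` is a cut edge: its ends are not connected by the other edges -/
def IsCutEdge {V E : Type} (src dst : E → V) (e : E) : Prop :=
  ¬ (under src dst {e' | e' ≠ e}).Reachable (src e) (dst e)

/-- the degree of `v` in the set of edges `F`, where a loop counts twice -/
def deg {V E : Type} [DecidableEq V] (src dst : E → V) (F : Finset E) (v : V) : ℕ :=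
  ∑ e ∈ F, ((if src e = v then 1 else 0) + (if dst e = v then 1 else 0))

/-- The edges with exactly one end in `X`. -/
def boundary {V E : Type} [DecidableEq V] [Fintype E] (src dst : E → V) (X : Finset V) :
    Finset E :=
  univ.filter (fun e => ¬ (src e ∈ X ↔ dst e ∈ X))

/-- The union of the sets `C j` with `j < i`. -/
def earlier {E : Type} [DecidableEq E] {m : ℕ} (C : Fin m → Finset E) (i : Fin m) : Finset E :=
  (univ.filter (fun j => j < i)).biUnion C

/-- `H` can be added to the chain after `F`: either (short) `H` has at most four edges outside `F`
and no bridge modulo `F`: no set `Y` of vertices without boundary edges in `F` has exactly one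
boundary edge in `H`; or (doubly connected) `H` contains two disjoint sets each of which connects,
modulo `F`, whatever `H` connects: every set `Y` of vertices without boundary edges in `F` and with
a boundary edge in `H` has boundary edges in both sets. -/
def Adds {V E : Type} [DecidableEq V] [Fintype E] [DecidableEq E] (src dst : E → V)
    (F H : Finset E) : Prop :=
  ((H \ F).card ≤ 4 ∧ ∀ Y : Finset V, Disjoint (boundary src dst Y) F →
    (boundary src dst Y ∩ H).card ≠ 1) ∨
  ∃ T₁ T₂ : Finset E, T₁ ⊆ H ∧ T₂ ⊆ H ∧ Disjoint T₁ T₂ ∧ ∀ Y : Finset V,
    Disjoint (boundary src dst Y) F → ¬ Disjoint (boundary src dst Y) H →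
      ¬ Disjoint (boundary src dst Y) T₁ ∧ ¬ Disjoint (boundary src dst Y) T₂

/-- The edge `e` joins the set `X` and the vertex `a`. -/
def Joins {V E : Type} (src dst : E → V) (X : Finset V) (a : V) (e : E) : Prop :=
  (src e ∈ X ∧ dst e = a) ∨ (src e = a ∧ dst e ∈ X)

/-- The sets `X` and `Y` are joined by an edge, or by two different paths with two edges. -/
def Close {V E : Type} (src dst : E → V) (X Y : Finset V) : Prop :=
  (∃ e, (src e ∈ X ∧ dst e ∈ Y) ∨ (src e ∈ Y ∧ dst e ∈ X)) ∨
    ∃ (e f e' f' : E) (a b : V), (e ≠ e' ∨ f ≠ f') ∧ Joins src dst X a e ∧ Joins src dst Y a f ∧
      Joins src dst X b e' ∧ Joins src dst Y b f'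

/-- Among any `k` pairwise disjoint sets of vertices whose numbers of boundary edges satisfy `P`,
without boundary edges in `F`, two are close. -/
def FarFree {V E : Type} [DecidableEq V] [Fintype E] [DecidableEq E] (src dst : E → V)
    (k : ℕ) (P : ℕ → Prop) (F : Finset E) : Prop :=
  ∀ X : Fin k → Finset V, (∀ i j, i ≠ j → Disjoint (X i) (X j)) →
    (∀ i, Disjoint (boundary src dst (X i)) F) → (∀ i, P (boundary src dst (X i)).card) →
    ∃ i j, i ≠ j ∧ Close src dst (X i) (X j)

/-- For some chain of sets of edges (for instance the empty chain), either among any seven pairwise
disjoint sets of vertices with at least three boundary edges, none of them in the chain, two are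
close, or among any six pairwise disjoint sets of vertices with exactly three or exactly five
boundary edges, none of them in the chain, two are close. -/
def NeverFar {V E : Type} [Fintype V] [DecidableEq V] [Fintype E] [DecidableEq E]
    (src dst : E → V) : Prop :=
  ∃ (m : ℕ) (C : Fin m → Finset E), (∀ i, Adds src dst (earlier C i) (C i)) ∧
    (FarFree src dst 7 (fun n => 3 ≤ n) (univ.biUnion C) ∨
      FarFree src dst 6 (fun n => n = 3 ∨ n = 5) (univ.biUnion C))

/-- **Theorem.** A graph without a cut edge which satisfies the condition above has six even
subgraphs such that every edge is in exactly four of them. -/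
theorem result (V E : Type) [Fintype V] [DecidableEq V] [Fintype E] [DecidableEq E]
    (src dst : E → V) (hI : ∀ e, ¬ IsCutEdge src dst e) (h : NeverFar src dst) :
    ∃ C : Fin 6 → Finset E, (∀ i v, Even (deg src dst (C i) v)) ∧
      ∀ e, (univ.filter fun i => e ∈ C i).card = 4 := by
  classical
  -- no cut with one edge
  have hcut : Pool.Agent.TH676.A.Br src dst ∅ ∅ := by
    intro Y _ hY
    rw [sdiff_empty] at hY
    obtain ⟨e, he⟩ := card_eq_one.mp hY
    apply hI e
    intro hr
    have hstay : ∀ x y, (under src dst {e' | e' ≠ e}).Reachable x y → (x ∈ Y ↔ y ∈ Y) := by
      rintro x y ⟨p⟩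
      induction p with
      | nil => exact Iff.rfl
      | cons hadj _ ih =>
        refine Iff.trans ?_ ih
        obtain ⟨_, e', he', h1⟩ := hadj
        have hn : e' ∉ Pool.Agent.TH676.A.crs src dst Y := by
          rw [he, mem_singleton]; exact he'
        rw [Pool.Agent.TH676.A.mem_crs, not_not] at hn
        rcases h1 with ⟨h2, h3⟩ | ⟨h2, h3⟩
        · rw [h2, h3] at hn; exact hn
        · rw [h2, h3] at hn; exact hn.symm
    have hm : e ∈ Pool.Agent.TH676.A.crs src dst Y := by rw [he]; exact mem_singleton_self _
    rw [Pool.Agent.TH676.A.mem_crs] at hm
    exact hm (hstay _ _ hr)
  obtain ⟨m, C, hC, hO⟩ := h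
  obtain ⟨C, h1, h2⟩ := Pool.Agent.TH497.BF.six
    (N410.DC.bf_gen Run7.h335.FM.inh_far67 src dst hcut (N410.DC.GCl.of_steps hC hO))
  exact ⟨C, h1, h2⟩

end Pool.Agent.Results.MP_40718a_co.SixSevenFarSets
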